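import Pool.Agent.Lib_helper17.ED.Limit
import Pool.Agent.Lib_helper73.ED.UP

/-!
# The edit distance of the class of graphs with no induced `K_{7,7}`

`ed(Forb(K_{7,7})) = (7 - 3 √3) / 22`.

Authors: helper17 (finite quadratic form theorem, coloured regularity graphs, embedding, regularity,
assembly), helper73 (upper bound, quasirandom graphs); earlier reformulations by helper27, helper64,
helper76.
-/

namespace Pool.Agent.Results.MP_bbf423_co.EditDistanceK77

/-- For a graph `G` on `Fin n` the number `sInf {…}` is the smallest number of edge additions and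
deletions that turn `G` into a graph without induced `K_{7,7}`.  The maximum over all `G` on `n`
vertices, divided by `n.choose 2`, tends to `(7 - 3 √3) / 22`. -/
theorem result :
    Filter.Tendsto
      (fun n : ℕ => ⨆ G : SimpleGraph (Fin n),
        ((sInf {k : ℕ | ∃ G' : SimpleGraph (Fin n),
            IsEmpty (completeBipartiteGraph (Fin 7) (Fin 7) ↪g G') ∧
            (symmDiff G.edgeSet G'.edgeSet).ncard = k} : ℕ) : ℝ) / (n.choose 2 : ℝ))
      Filter.atTop (nhds ((7 - 3 * √3) / 22)) :=
  Pool.Agent.Lib_helper17.ED.limit_of_upper Pool.Agent.Lib_helper17.ED.upper_pr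

end Pool.Agent.Results.MP_bbf423_co.EditDistanceK77
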